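import Pool.Agent.X31.T6
import Pool.Agent.X31.T2
import Pool.Agent.TH646.TT.Pow4

/-!
# Primes in intervals of length `x ^ ε` on the translates of arbitrary sets by the integers within `N ^ δ` of
# the values of bilinear functions at pairs of integers with missing digits

`C₁`, `C₂` are sets of integers with `mⱼ` digits in base `bⱼ` whose digits are in arbitrary sets of allowed
digits with at least TWO elements (for instance: the integers with the decimal digits `0` and `1` only), `M` is an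
arbitrary set with at least `#C₁ #C₂ / N ^ δ` pairs in `C₁ × C₂`, `θ` is a real number and `g`, `h` are
ARBITRARY real functions. The values considered are `θ x y + g(x) + h(y)`; for `θ = 1`, `g = h = 0` these are the
products of two integers with missing digits.
For every set `A` of at least `N ^ (1 - δ)` integers in `[1, N]`: for all but a proportion `N ^ (-δ)` of the `n` in `M`,
ALL the integers `s` within `N ^ δ` of the value at `n` (with `√N ≤ s ≤ N`) are such that a positive proportion of the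
`x` in `A + s` has many primes in `(x, x + y]` for each `N ^ ε ≤ y ≤ N`, and a prime in `(x - x ^ ε, x)`.

The minimal real additive energy of these values is from `Pool.Agent.X31.M1` - `M3` (in this run); the theorem on families of
small energy (`Pool.Agent.TH646.TT.pow_two_sided`) is in the starting files.
From Mathlib: `Finset.Icc 1 N`: the integers from `1` to `N`; `Finset.Ioc u v`: the integers `n` with `u < n ≤ v`.
-/

set_option autoImplicit false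

namespace Pool.Agent.Results.MP_b8a134_nt.BilinearTranslates

open Finset

/-- the integers `0 ≤ n < b ^ m` whose digit at `b ^ j` in base `b` is in `𝒟 j`, for all `j < m` -/
def Digits (b : ℕ) (𝒟 : ℕ → Finset ℕ) (m : ℕ) : Finset ℕ :=
  (range (b ^ m)).filter (fun n => ∀ j < m, n / b ^ j % b ∈ 𝒟 j)

/-- the bilinear function `θ x y + g(x) + h(y)` -/
def bil (θ : ℝ) (g h : ℕ → ℝ) (n : ℕ × ℕ) : ℝ := θ * ((n.1 : ℝ) * n.2) + g n.1 + h n.2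

/-- `M` is a set of pairs in `Digits b₁ 𝒟₁ m₁ × Digits b₂ 𝒟₂ m₂` with at least `1 / N ^ δ` of all these pairs, where
all sets `𝒟ᵢ j` of allowed digits have at least two elements and `m₁ ≤ l m₂`, `m₂ ≤ l m₁`; the number `θ` is at most
`N ^ δ` and at least `N / (b₁ ^ m₁ b₂ ^ m₂ N ^ δ)` in absolute value; `g` and `h` are ARBITRARY functions with
`|bil θ g h| ≤ N` on `M`. -/
def Fam (b₁ b₂ l N m₁ m₂ : ℕ) (δ : ℝ) (𝒟₁ 𝒟₂ : ℕ → Finset ℕ) (θ : ℝ) (g h : ℕ → ℝ) (M : Finset (ℕ × ℕ)) : Prop :=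
  (∀ j, 𝒟₁ j ⊆ range b₁ ∧ 2 ≤ (𝒟₁ j).card) ∧ (∀ j, 𝒟₂ j ⊆ range b₂ ∧ 2 ≤ (𝒟₂ j).card) ∧
  m₁ ≤ l * m₂ ∧ m₂ ≤ l * m₁ ∧
  |θ| ≤ (N : ℝ) ^ δ ∧ (N : ℝ) / (N : ℝ) ^ δ ≤ |θ| * ((b₁ : ℝ) ^ m₁ * (b₂ : ℝ) ^ m₂) ∧
  M ⊆ Digits b₁ 𝒟₁ m₁ ×ˢ Digits b₂ 𝒟₂ m₂ ∧
  ((Digits b₁ 𝒟₁ m₁).card * (Digits b₂ 𝒟₂ m₂).card : ℝ) / (N : ℝ) ^ δ ≤ M.card ∧ ∀ n ∈ M, |bil θ g h n| ≤ N

/-- The number of the primes in `(n, n + y]`. -/
def primesIn (n y : ℕ) : ℕ := ((Ioc n (n + y)).filter Nat.Prime).card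

open Classical in
/-- The translate `A + s` has good points, up to constants:

* for all integers `y` with `N ^ ε ≤ y ≤ N` the average of the number of primes in `(x, x + y]` over the `x = a + s`,
  `a ∈ A`, lies between `c y / log N` and `5 y / log N`, and at least `c |A|` elements `x` of `A + s` have at least
  `c y / log N` primes in `(x, x + y]`;
* at least `c |A|` elements `x` of `A + s` have a prime in the interval `(x - x ^ ε, x)`. -/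
noncomputable def Good (c ε : ℝ) (N : ℕ) (A : Finset ℕ) (s : ℕ) : Prop :=
  (∀ y : ℕ, (N : ℝ) ^ ε ≤ y → y ≤ N →
    c * (A.card * y) ≤ (∑ a ∈ A, (primesIn (a + s) y : ℝ)) * Real.log N ∧
    (∑ a ∈ A, (primesIn (a + s) y : ℝ)) * Real.log N ≤ 5 * (A.card * y) ∧
    c * A.card ≤ ((A.filter fun a => c * y ≤ (primesIn (a + s) y : ℝ) * Real.log N).card : ℝ)) ∧
  c * A.card ≤ ((A.filter fun a => ∃ q : ℕ, q.Prime ∧
    ((a + s : ℕ) : ℝ) - ((a + s : ℕ) : ℝ) ^ ε < q ∧ q < a + s).card : ℝ)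

lemma dat_of {b₁ b₂ l N m₁ m₂ : ℕ} {δ : ℝ} {𝒟₁ 𝒟₂ : ℕ → Finset ℕ} {θ : ℝ} {g h : ℕ → ℝ} {M : Finset (ℕ × ℕ)}
    (H : Fam b₁ b₂ l N m₁ m₂ δ 𝒟₁ 𝒟₂ θ g h M) :
    Pool.Agent.X31.CT.Dat2T b₁ b₂ l ((N : ℝ) ^ δ) N m₁ m₂ 𝒟₁ 𝒟₂ θ g h M :=
  ⟨H.1, H.2.1, H.2.2.1, H.2.2.2.1, H.2.2.2.2.1, H.2.2.2.2.2.1, H.2.2.2.2.2.2.1, H.2.2.2.2.2.2.2.1,
    H.2.2.2.2.2.2.2.2⟩

/-- There is an absolute constant `c > 0` such that for all `0 < ε < 1` the following holds. Let `b₁, b₂ ≥ 2` and `l ≥ 1` be integers.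
There are `δ > 0` and `N₀` such that for all `N ≥ N₀`, for all numbers `m₁`, `m₂` of digits, ALL sets of allowed digits, all `θ`, ALL functions
`g`, `h` and all sets `M` of pairs with `Fam b₁ b₂ l N m₁ m₂ δ 𝒟₁ 𝒟₂ θ g h M`, and ALL sets `A` of at least `N ^ (1 - δ)` integers
in `[1, N]`: for all the `n` in `M` with at most `#M / N ^ δ` exceptions, ALL the integers `√N ≤ s ≤ N` with
`|s - bil θ g h n| ≤ N ^ δ` are such that the translate `A + s` is `Good`. -/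
theorem result : ∃ c₀ : ℝ, 0 < c₀ ∧ c₀ ≤ 1 ∧ ∀ ε : ℝ, 0 < ε → ε < 1 → ∀ (b₁ b₂ l : ℕ),
    (2 ≤ b₁ ∧ 2 ≤ b₂ ∧ 1 ≤ l) →
    ∃ δ : ℝ, 0 < δ ∧ ∃ N₀ : ℕ, ∀ N : ℕ, N₀ ≤ N → ∀ (m₁ m₂ : ℕ) (𝒟₁ 𝒟₂ : ℕ → Finset ℕ) (θ : ℝ) (g h : ℕ → ℝ) (M : Finset (ℕ × ℕ)),
    Fam b₁ b₂ l N m₁ m₂ δ 𝒟₁ 𝒟₂ θ g h M →
      ∀ A : Finset ℕ, A ⊆ Icc 1 N → (N : ℝ) ^ (1 - δ) ≤ A.card →
      ∃ E : Finset (ℕ × ℕ), (E.card : ℝ) ≤ M.card * (N : ℝ) ^ (-δ) ∧
        ∀ n ∈ M, n ∉ E → ∀ s : ℕ, |(s : ℝ) - bil θ g h n| ≤ (N : ℝ) ^ δ → (N : ℝ) ^ (1 / 2 : ℝ) ≤ s → s ≤ N →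
          Good c₀ ε N A s := by
  classical
  obtain ⟨c₀, hc0, hc1, hmain⟩ := Pool.Agent.TH646.TT.pow_two_sided
  refine ⟨c₀, hc0, hc1, fun ε hε hε1 b₁ b₂ l hb => ?_⟩
  obtain ⟨E', HS⟩ : ∃ E' : ℕ, Pool.Agent.X31.SchT E' (Pool.Agent.X31.QBil b₁ b₂ l) :=
    ⟨0, Pool.Agent.X31.SchT_bil hb.1 hb.2.1 l hb.2.2⟩
  obtain ⟨p, hp, H⟩ := HS.single (π := Finset ℕ)
  obtain ⟨κ, hκ, hev⟩ := hmain ε hε hε1 p 2
  obtain ⟨δ, hδ, hδκ, N₀, H⟩ := H p le_rfl κ hκ (fun N A => A ⊆ Icc 1 N ∧ (N : ℝ) ^ (1 - κ) ≤ A.card)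
    (fun N A s => (N : ℝ) ^ (1 / 2 : ℝ) ≤ s → s ≤ N → Good c₀ ε N A s.toNat) (by
      filter_upwards [hev] with N h A hA x s hs hE S hS1 hS2
      refine h x s (fun m hm => by exact_mod_cast hs m hm) hE A hA.1 hA.2 S hS1 ?_
      intro m hm
      have h3 := hS2 m hm
      push Not at h3
      obtain ⟨h4, h5, h6⟩ := h3
      exact ⟨h4, h5, fun h7 => h6 ⟨h7.1, h7.2⟩⟩)
  refine ⟨δ, hδ, N₀ + 1, fun N hN m₁ m₂ 𝒟₁ 𝒟₂ θ g h M hfam A hA hAN => ?_⟩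
  have hNr : (1 : ℝ) ≤ N := by exact_mod_cast (by omega : 1 ≤ N)
  obtain ⟨E, hE1, hE2⟩ := H N (by omega) A ⟨hA, (Real.rpow_le_rpow_of_exponent_le hNr (by linarith)).trans hAN⟩ M
    (fun n => bil θ g h n) ⟨m₁, m₂, 𝒟₁, 𝒟₂, θ, g, h, dat_of hfam, fun _ => rfl⟩
  refine ⟨E, hE1, fun n hn hnE s hs hs1 hs2 => ?_⟩
  have h1 := hE2 n hn hnE (s : ℤ) (by exact_mod_cast hs) (by exact_mod_cast hs1) (by exact_mod_cast hs2)
  rw [Int.toNat_natCast] at h1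
  exact h1

end Pool.Agent.Results.MP_b8a134_nt.BilinearTranslates
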