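import Mathlib
import Pool.Agent.X58.IV.Pat

set_option autoImplicit false

/-!
# Patterns of almost primes between `x` and `x + √x`, uniformly in the pattern

For all large real `x`, EVERY admissible set `S` of at most `k` shifts (of any size) and every window
`(A, A + X]` of length `X ≥ x ^ θ` with all `q + a` in `(x, x + √x)`, the number of the `q` of the window for which
all `q + a`, `a ∈ S`, are products of at most `2 t` primes, all of them `> (⌊√x⌋ + 2) ^ (1 / t)`, has the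
conjectured order of magnitude `X V`, `V` the product of the local densities, and every subset of positive relative
density contains arithmetic progressions of `m` terms with differences `≤ (log x) ^ B`.
-/

namespace Pool.Agent.Results.MP_b8a134_nt.DenseSubsets

open Finset Pool.Agent.X58.IV

/-- no prime divides `∏ (q + a)`, `a ∈ S`, for all `q` -/
def Admissible (S : Finset ℕ) : Prop := ∀ p : ℕ, p.Prime → ∃ q : ℕ, ¬ p ∣ ∏ a ∈ S, (q + a)

/-- the number of the classes `q` modulo `p` with `p ∣ ∏ (q + a)` -/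
def omega (S : Finset ℕ) (p : ℕ) : ℕ := ((range p).filter (fun q => p ∣ ∏ a ∈ S, (q + a))).card

/-- the product of the local densities `1 - omega S p / p` over the primes `p ≤ N` -/
noncomputable def V (S : Finset ℕ) (N : ℕ) : ℝ :=
  ∏ p ∈ (Icc 1 N).filter Nat.Prime, (1 - (omega S p : ℝ) / p)

/-- `v > 1` is a product of at most `r` primes, all of them `> z` -/
def AlmostPrime (r : ℕ) (z : ℝ) (v : ℕ) : Prop :=
  1 < v ∧ v.primeFactorsList.length ≤ r ∧ ∀ p : ℕ, p.Prime → p ∣ v → z < p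

/-- `⌊√x⌋ + 2` -/
noncomputable def N (x : ℝ) : ℕ := ⌊√x⌋₊ + 2

open Classical in
/-- the `q` of `(A, A + X]` for which all `q + a`, `a ∈ S`, are products of at most `2 t` primes, all of them
`> (⌊√x⌋ + 2) ^ (1 / t)` -/
noncomputable def Good (S : Finset ℕ) (t : ℕ) (x : ℝ) (A X : ℕ) : Finset ℕ :=
  (Ioc A (A + X)).filter (fun q => ∀ a ∈ S, AlmostPrime (2 * t) ((N x : ℝ) ^ (1 / (t : ℝ))) (q + a))

theorem result (k : ℕ) (θ : ℝ) (hθ : 0 < θ) : ∃ (t₀ : ℕ) (c : ℝ), 1 ≤ t₀ ∧ 0 < c ∧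
    ∀ t : ℕ, t₀ ≤ t → ∃ C : ℝ, 0 < C ∧ ∀ (m : ℕ) (ρ : ℝ), 0 < ρ → ∃ (B : ℕ) (x₀ : ℝ), ∀ (x : ℝ) (A X : ℕ),
      x₀ ≤ x → x ≤ A → x ^ θ ≤ X → ∀ S : Finset ℕ, S.Nonempty → S.card ≤ k → Admissible S →
      (∀ a ∈ S, ((A + X + a : ℕ) : ℝ) < x + √x) →
      c / Real.log x ^ k ≤ V S (N x) ∧
      c * X * V S (N x) ≤ ((Good S t x A X).card : ℝ) ∧
      ((Good S t x A X).card : ℝ) ≤ C * X * V S (N x) ∧
      ∀ U ⊆ Good S t x A X, ρ * ((Good S t x A X).card : ℝ) ≤ U.card →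
        ∃ a d : ℕ, 1 ≤ d ∧ (d : ℝ) ≤ Real.log x ^ B ∧ ∀ j < m, a + j * d ∈ U := by
  classical
  obtain ⟨t₀, c, ht₀, hc, hV, h⟩ := windowS k 2 θ hθ
  refine ⟨t₀, c, ht₀, hc, fun t ht => ?_⟩
  obtain ⟨C, hC, h2⟩ := h t ht
  refine ⟨C, hC, fun m ρ hρ => ?_⟩
  obtain ⟨B, N₀, h3⟩ := h2 m ρ hρ
  refine ⟨B, max ((N₀ : ℝ) ^ 2) 16, fun x A X hx hA hX S hS0 hS hadm hval => ?_⟩
  have hx16 : (16 : ℝ) ≤ x := (le_max_right _ _).trans hx
  have hxN : (N₀ : ℝ) ^ 2 ≤ x := (le_max_left _ _).trans hx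
  have hx0 : 0 < x := by linarith
  have hs4 : (4 : ℝ) ≤ √x := by
    rw [show (4 : ℝ) = √(4 ^ 2) by rw [Real.sqrt_sq (by norm_num)]]
    exact Real.sqrt_le_sqrt (by linarith)
  have hss : √x * √x = x := Real.mul_self_sqrt hx0.le
  have hNlow : √x + 1 ≤ (N x : ℝ) := by
    have := Nat.lt_floor_add_one (√x)
    unfold N
    push_cast
    linarith
  have hNup : (N x : ℝ) ≤ √x + 2 := by
    have := Nat.floor_le (Real.sqrt_nonneg x)
    unfold N
    push_cast
    linarith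
  have hNx : (N x : ℝ) ≤ x := by nlinarith
  have hN0 : N₀ ≤ N x := by
    have h5 : (N₀ : ℝ) ≤ √x := Real.le_sqrt_of_sq_le hxN
    have h6 : (N₀ : ℝ) ≤ (N x : ℝ) := by linarith
    exact_mod_cast h6
  have hN2 : 2 ≤ N x := by unfold N; omega
  have hAX : ((A + X : ℕ) : ℝ) < x + √x := by
    obtain ⟨a, ha⟩ := hS0
    have := hval a ha
    push_cast at this ⊢
    have h5 : (0 : ℝ) ≤ a := Nat.cast_nonneg _
    linarith
  have hXN : X ≤ N x := by
    have h5 : (X : ℝ) ≤ (N x : ℝ) := by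
      push_cast at hAX
      linarith
    exact_mod_cast h5
  have hlx : 0 < Real.log (N x) := Real.log_pos (by
    have : (2 : ℝ) ≤ (N x : ℝ) := by exact_mod_cast hN2
    linarith)
  have hll : Real.log (N x) ≤ Real.log x := Real.log_le_log (by
    have : (2 : ℝ) ≤ (N x : ℝ) := by exact_mod_cast hN2
    linarith) hNx
  have hb := hV S hS hadm (N x) hN2
  have hm := h3 (N x) A X hN0 (by
    refine le_trans ?_ hX
    exact Real.rpow_le_rpow (Nat.cast_nonneg _) hNx hθ.le) hXN S hS hadm (by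
    intro a ha
    have hA1 : 1 ≤ A := by
      have : (1 : ℝ) ≤ A := by linarith
      exact_mod_cast this
    refine ⟨by omega, ?_⟩
    have h5 := hval a ha
    have h6 : x + √x ≤ (N x : ℝ) ^ 2 := by nlinarith
    have h7 : ((A + X + a : ℕ) : ℝ) ≤ ((N x ^ 2 : ℕ) : ℝ) := by
      push_cast at h5 ⊢
      linarith
    exact_mod_cast h7)
  refine ⟨?_, hm.1, hm.2.1, fun U hU hUc => ?_⟩
  · refine le_trans ?_ hb
    apply div_le_div_of_nonneg_left hc.le (by positivity)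
    exact pow_le_pow_left₀ hlx.le hll k
  · obtain ⟨a, d, h5, h6, h7⟩ := hm.2.2 U hU hUc
    exact ⟨a, d, h5, h6.trans (pow_le_pow_left₀ hlx.le hll B), h7⟩

end Pool.Agent.Results.MP_b8a134_nt.DenseSubsets
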